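import Mathlib

/-!
# The discrete wave inequality on the octahedron lattice
-/

set_option autoImplicit false

open Finset

namespace Pool.Agent.BalanWang

lemma sum_second_diff (n : ℕ) (g : ℕ → ℝ) :
    ∑ i ∈ range n, (g i + g (i + 2) - 2 * g (i + 1)) = (g (n + 1) - g n) - (g 1 - g 0) := by
  induction n with
  | zero => simp
  | succ n ih =>
    rw [sum_range_succ, ih]
    ring

lemma smooth_one (n : ℕ) (g : ℕ → ℝ) (L : ℝ) (h0 : |g 1 - g 0| ≤ L) (h1 : |g (n + 1) - g n| ≤ L) :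
    4 * ∑ i ∈ range n, g (i + 1) - 2 * L ≤ ∑ i ∈ range n, (g i + 2 * g (i + 1) + g (i + 2)) := by
  have h := sum_second_diff n g
  have e : ∑ i ∈ range n, (g i + 2 * g (i + 1) + g (i + 2)) =
      ∑ i ∈ range n, (g i + g (i + 2) - 2 * g (i + 1)) + 4 * ∑ i ∈ range n, g (i + 1) := by
    rw [mul_sum, ← sum_add_distrib]
    exact sum_congr rfl fun i _ => by ring
  rw [e, h]
  rw [abs_le] at h0 h1
  linarith [h0.1, h0.2, h1.1, h1.2]

/-- four-point sum -/
def sq4 (f : ℕ → ℕ → ℝ) (i j : ℕ) : ℝ := f (i + 1) (j + 1) + f i (j + 1) + f (i + 1) j + f i j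

/-- four-point sum, shifted -/
def sq4' (f : ℕ → ℕ → ℝ) (i j : ℕ) : ℝ := f i j + f (i + 1) j + f i (j + 1) + f (i + 1) (j + 1)

lemma smooth_two (n : ℕ) (p : ℕ → ℕ → ℝ) (L : ℝ) (hL : 0 ≤ L)
    (hx : ∀ i ≤ n, ∀ j ≤ n + 1, |p (i + 1) j - p i j| ≤ L)
    (hy : ∀ i ≤ n + 1, ∀ j ≤ n, |p i (j + 1) - p i j| ≤ L) :
    16 * ∑ i ∈ range n, ∑ j ∈ range n, p (i + 1) (j + 1) - 16 * n * L ≤
      ∑ i ∈ range n, ∑ j ∈ range n, sq4 (sq4' p) i j := by
  have e : ∑ i ∈ range n, ∑ j ∈ range n, sq4 (sq4' p) i j =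
      ∑ j ∈ range n, ∑ i ∈ range n,
        ((p i j + 2 * p i (j + 1) + p i (j + 2)) +
          2 * (p (i + 1) j + 2 * p (i + 1) (j + 1) + p (i + 1) (j + 2)) +
          (p (i + 2) j + 2 * p (i + 2) (j + 1) + p (i + 2) (j + 2))) := by
    rw [sum_comm]
    refine sum_congr rfl fun j _ => sum_congr rfl fun i _ => ?_
    simp only [sq4, sq4']
    ring
  rw [e]
  have h1 : ∀ j ∈ range n, 4 * ∑ i ∈ range n, (p (i + 1) j + 2 * p (i + 1) (j + 1) + p (i + 1) (j + 2)) -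
      2 * (4 * L) ≤ ∑ i ∈ range n,
        ((p i j + 2 * p i (j + 1) + p i (j + 2)) +
          2 * (p (i + 1) j + 2 * p (i + 1) (j + 1) + p (i + 1) (j + 2)) +
          (p (i + 2) j + 2 * p (i + 2) (j + 1) + p (i + 2) (j + 2))) := by
    intro j hj
    rw [mem_range] at hj
    have hb : ∀ i ≤ n, |(p (i + 1) j + 2 * p (i + 1) (j + 1) + p (i + 1) (j + 2)) -
        (p i j + 2 * p i (j + 1) + p i (j + 2))| ≤ 4 * L := by
      intro i hi
      have a1 := abs_le.mp (hx i hi j (by omega))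
      have a2 := abs_le.mp (hx i hi (j + 1) (by omega))
      have a3 := abs_le.mp (hx i hi (j + 2) (by omega))
      rw [abs_le]
      constructor <;> linarith [a1.1, a1.2, a2.1, a2.2, a3.1, a3.2]
    exact smooth_one n (fun i => p i j + 2 * p i (j + 1) + p i (j + 2)) (4 * L) (hb 0 (by omega))
      (hb n le_rfl)
  have h2 : ∀ i ∈ range n, 4 * ∑ j ∈ range n, p (i + 1) (j + 1) - 2 * L ≤
      ∑ j ∈ range n, (p (i + 1) j + 2 * p (i + 1) (j + 1) + p (i + 1) (j + 2)) := by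
    intro i hi
    rw [mem_range] at hi
    exact smooth_one n (fun j => p (i + 1) j) L (hy (i + 1) (by omega) 0 (by omega))
      (hy (i + 1) (by omega) n le_rfl)
  have h3 := sum_le_sum h1
  have h4 := sum_le_sum h2
  rw [sum_sub_distrib, ← mul_sum, sum_const, card_range, nsmul_eq_mul] at h3 h4
  have e2 : ∑ j ∈ range n, ∑ i ∈ range n, (p (i + 1) j + 2 * p (i + 1) (j + 1) + p (i + 1) (j + 2)) =
      ∑ i ∈ range n, ∑ j ∈ range n, (p (i + 1) j + 2 * p (i + 1) (j + 1) + p (i + 1) (j + 2)) :=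
    sum_comm
  rw [e2] at h3
  linarith

/-- The wave inequality: abstract form. `P h`, `Q h` are the values at even and odd levels. -/
lemma wave (n h₀ : ℕ) (hn : 1 ≤ n) (P Q : ℕ → ℕ → ℕ → ℝ) (L c : ℝ) (hL : 0 ≤ L)
    (hE : ∀ h, h₀ ≤ h → h ≤ h₀ + n → ∀ u v, 1 ≤ u → u ≤ n → 1 ≤ v → v ≤ n →
      Q h u v + Q h (u - 1) v + Q h u (v - 1) + Q h (u - 1) (v - 1) + 2 * c ≤
        2 * P (h + 1) u v + 2 * P h u v)
    (hO : ∀ h, h₀ ≤ h → h < h₀ + n → ∀ u v, u ≤ n → v ≤ n →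
      P (h + 1) u v + P (h + 1) (u + 1) v + P (h + 1) u (v + 1) + P (h + 1) (u + 1) (v + 1) + 2 * c ≤
        2 * Q (h + 1) u v + 2 * Q h u v)
    (hx : ∀ h, h₀ ≤ h → h ≤ h₀ + n + 1 → ∀ u ≤ n, ∀ v ≤ n + 1, |P h (u + 1) v - P h u v| ≤ L)
    (hy : ∀ h, h₀ ≤ h → h ≤ h₀ + n + 1 → ∀ u ≤ n + 1, ∀ v ≤ n, |P h u (v + 1) - P h u v| ≤ L)
    (ht : ∀ h, h₀ ≤ h → h ≤ h₀ + n → ∀ u v, u ≤ n → v ≤ n → |P (h + 1) u v - P h u v| ≤ 2 * L) :
    n * c / 2 ≤ L := by
  have hn0 : (0 : ℝ) < n := by exact_mod_cast hn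
  set A : ℕ → ℝ := fun h => ∑ i ∈ range n, ∑ j ∈ range n, P h (i + 1) (j + 1) with hA
  set B : ℕ → ℝ := fun h => ∑ i ∈ range n, ∑ j ∈ range n, sq4 (Q h) i j with hB
  have s1 : ∀ h, h₀ ≤ h → h ≤ h₀ + n → B h + 2 * n ^ 2 * c ≤ 2 * A (h + 1) + 2 * A h := by
    intro h h1 h2
    have := sum_le_sum (s := range n) fun i hi => sum_le_sum (s := range n) fun j hj =>
      hE h h1 h2 (i + 1) (j + 1) (by omega) (by rw [mem_range] at hi; omega) (by omega)
        (by rw [mem_range] at hj; omega)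
    simp only [Nat.add_sub_cancel, sum_add_distrib, sum_const, card_range, nsmul_eq_mul,
      ← mul_sum] at this
    simp only [hA, hB, sq4, sum_add_distrib]
    nlinarith
  have s2 : ∀ h, h₀ ≤ h → h < h₀ + n → 16 * A (h + 1) - 16 * n * L + 8 * n ^ 2 * c ≤
      2 * B (h + 1) + 2 * B h := by
    intro h h1 h2
    have k1 := smooth_two n (P (h + 1)) L hL (hx (h + 1) (by omega) (by omega))
      (hy (h + 1) (by omega) (by omega))
    have k2 : ∑ i ∈ range n, ∑ j ∈ range n, (sq4 (sq4' (P (h + 1))) i j + 8 * c) ≤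
        ∑ i ∈ range n, ∑ j ∈ range n, (2 * sq4 (Q (h + 1)) i j + 2 * sq4 (Q h) i j) := by
      refine sum_le_sum fun i hi => sum_le_sum fun j hj => ?_
      rw [mem_range] at hi hj
      have o1 := hO h h1 h2 i j (by omega) (by omega)
      have o2 := hO h h1 h2 (i + 1) j (by omega) (by omega)
      have o3 := hO h h1 h2 i (j + 1) (by omega) (by omega)
      have o4 := hO h h1 h2 (i + 1) (j + 1) (by omega) (by omega)
      simp only [sq4, sq4']
      linarith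
    simp only [sum_add_distrib, sum_const, card_range, nsmul_eq_mul, ← mul_sum] at k2
    simp only [hA, hB]
    nlinarith
  have s3 : ∀ h, h₀ ≤ h → h < h₀ + n →
      4 * n ^ 2 * c - 4 * n * L ≤ (A (h + 2) - A (h + 1)) - (A (h + 1) - A h) := by
    intro h h1 h2
    have a1 := s1 h h1 (by omega)
    have a2 := s1 (h + 1) (by omega) (by omega)
    have a3 := s2 h h1 h2
    have e : h + 1 + 1 = h + 2 := rfl
    rw [e] at a2
    linarith
  have s4 : ∀ t ≤ n, t * (4 * n ^ 2 * c - 4 * n * L) ≤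
      (A (h₀ + t + 1) - A (h₀ + t)) - (A (h₀ + 1) - A h₀) := by
    intro t ht
    induction t with
    | zero => simp
    | succ t ih =>
      have i1 := ih (by omega)
      have i2 := s3 (h₀ + t) (by omega) (by omega)
      have e1 : h₀ + (t + 1) + 1 = h₀ + t + 2 := by ring
      have e2 : h₀ + (t + 1) = h₀ + t + 1 := by ring
      rw [e1, e2]
      push_cast
      linarith
  have s5 : ∀ h, h₀ ≤ h → h ≤ h₀ + n → |A (h + 1) - A h| ≤ n ^ 2 * (2 * L) := by
    intro h h1 h2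
    simp only [hA]
    rw [← sum_sub_distrib]
    refine (abs_sum_le_sum_abs _ _).trans ?_
    have : ∀ i ∈ range n, |∑ j ∈ range n, P (h + 1) (i + 1) (j + 1) -
        ∑ j ∈ range n, P h (i + 1) (j + 1)| ≤ n * (2 * L) := by
      intro i hi
      rw [mem_range] at hi
      rw [← sum_sub_distrib]
      refine (abs_sum_le_sum_abs _ _).trans ?_
      have h3 := sum_le_card_nsmul (range n)
        (fun j => |P (h + 1) (i + 1) (j + 1) - P h (i + 1) (j + 1)|) (2 * L)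
        (fun j hj => ht h h1 h2 (i + 1) (j + 1) (by omega) (by rw [mem_range] at hj; omega))
      simpa using h3
    have h3 := sum_le_card_nsmul (range n) _ _ this
    rw [card_range, nsmul_eq_mul] at h3
    calc _ ≤ _ := h3
      _ = n ^ 2 * (2 * L) := by ring
  have s6 := s4 n le_rfl
  have s7 := abs_le.mp (s5 (h₀ + n) (by omega) le_rfl)
  have s8 := abs_le.mp (s5 h₀ le_rfl (by omega))
  have s9 : n * (4 * n ^ 2 * c - 4 * n * L) ≤ 4 * n ^ 2 * L := by linarith [s7.2, s8.1]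
  have s10 : (n : ℝ) ^ 2 * (n * c) ≤ n ^ 2 * (2 * L) := by linarith
  have s11 := le_of_mul_le_mul_left s10 (by positivity)
  linarith

end Pool.Agent.BalanWang
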