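import Pool.Agent.MP_686ee2_an.TP.Comb

set_option autoImplicit false

open Finset

namespace Pool.Agent.BalanWang

/-- Four blocks of positions, filled from the left, and a fixed set at the end. -/
def SS (l e α β γ δ : ℕ) : Finset ℕ :=
  range α ∪ Ico l (l + β) ∪ Ico (2 * l) (2 * l + γ) ∪ Ico (3 * l) (3 * l + δ) ∪
    Ico (4 * l) (4 * l + e)

lemma mem_SS {l e α β γ δ x : ℕ} : x ∈ SS l e α β γ δ ↔ x < α ∨ (l ≤ x ∧ x < l + β) ∨
    (2 * l ≤ x ∧ x < 2 * l + γ) ∨ (3 * l ≤ x ∧ x < 3 * l + δ) ∨ (4 * l ≤ x ∧ x < 4 * l + e) := by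
  simp only [SS, mem_union, mem_range, mem_Ico]
  tauto

lemma SS_a (l e α β γ δ : ℕ) : SS l e (α + 1) β γ δ = insert α (SS l e α β γ δ) := by
  ext x
  rw [mem_insert, mem_SS, mem_SS]
  omega

lemma SS_b (l e α β γ δ : ℕ) : SS l e α (β + 1) γ δ = insert (l + β) (SS l e α β γ δ) := by
  ext x
  rw [mem_insert, mem_SS, mem_SS]
  omega

lemma SS_c (l e α β γ δ : ℕ) : SS l e α β (γ + 1) δ = insert (2 * l + γ) (SS l e α β γ δ) := by
  ext x
  rw [mem_insert, mem_SS, mem_SS]
  omega

lemma SS_d (l e α β γ δ : ℕ) : SS l e α β γ (δ + 1) = insert (3 * l + δ) (SS l e α β γ δ) := by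
  ext x
  rw [mem_insert, mem_SS, mem_SS]
  omega

lemma SS_sub {l e α β γ δ : ℕ} (ha : α ≤ l) (hb : β ≤ l) (hc : γ ≤ l) (hd : δ ≤ l) :
    SS l e α β γ δ ⊆ range (4 * l + e) := by
  intro x hx
  rw [mem_SS] at hx
  rw [mem_range]
  omega

lemma SS_card {l e : ℕ} : ∀ {α β γ δ : ℕ}, α ≤ l → β ≤ l → γ ≤ l → δ ≤ l →
    (SS l e α β γ δ).card = α + β + γ + δ + e := by
  intro α β γ δ ha hb hc hd
  unfold SS
  rw [card_union_of_disjoint, card_union_of_disjoint, card_union_of_disjoint,
    card_union_of_disjoint]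
  · simp only [card_range, Nat.card_Ico]
    omega
  all_goals
    rw [disjoint_left]
    intro x hx
    simp only [mem_union, mem_range, mem_Ico] at hx ⊢
    omega

/-- What we use about (absolute values of) Plücker coordinates. -/
structure PluckerData (r m : ℕ) (K : ℝ) (p : Finset ℕ → ℝ) : Prop where
  pos : ∀ S ⊆ range m, S.card = r → 0 < p S
  three : ∀ (X : Finset ℕ) (a b c d : ℕ), X ⊆ range m → X.card + 2 = r → a < b → b < c → c < d →
    d < m → a ∉ X → b ∉ X → c ∉ X → d ∉ X →
    p (insert a (insert c X)) * p (insert b (insert d X)) =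
      p (insert a (insert b X)) * p (insert c (insert d X)) +
        p (insert a (insert d X)) * p (insert b (insert c X))
  lip : ∀ (T : Finset ℕ) (i j : ℕ), T ⊆ range m → T.card + 1 = r → i < m → j < m → i ∉ T → j ∉ T →
    p (insert j T) ≤ K * p (insert i T)

lemma log_amgm {x y u v z w : ℝ} (hx : 0 < x) (hy : 0 < y) (hu : 0 < u) (hv : 0 < v)
    (hz : 0 < z) (hw : 0 < w) (h : x * y = u * v + z * w) :
    Real.log u + Real.log v + Real.log z + Real.log w + 2 * Real.log 2 ≤
      2 * Real.log x + 2 * Real.log y := by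
  have h1 : 4 * ((u * v) * (z * w)) ≤ (x * y) ^ 2 := by
    rw [h]
    nlinarith [sq_nonneg (u * v - z * w)]
  have h2 := Real.log_le_log (by positivity) h1
  rw [Real.log_pow, Real.log_mul (by norm_num) (by positivity), Real.log_mul (by positivity) (by positivity),
    Real.log_mul hu.ne' hv.ne', Real.log_mul hz.ne' hw.ne', Real.log_mul hx.ne' hy.ne'] at h2
  have h3 : Real.log 4 = 2 * Real.log 2 := by
    rw [show (4 : ℝ) = 2 ^ 2 by norm_num, Real.log_pow]
    norm_num
  rw [h3] at h2
  push_cast at h2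
  linarith

section

variable {l e : ℕ} {K : ℝ} {p : Finset ℕ → ℝ}

lemma pd_pos (hp : PluckerData (2 * l + e) (4 * l + e) K p) {α β γ δ : ℕ} (ha : α ≤ l) (hb : β ≤ l)
    (hc : γ ≤ l) (hd : δ ≤ l) (hs : α + β + γ + δ = 2 * l) : 0 < p (SS l e α β γ δ) :=
  hp.pos _ (SS_sub ha hb hc hd) (by rw [SS_card ha hb hc hd]; omega)

lemma pd_oct (hp : PluckerData (2 * l + e) (4 * l + e) K p) {α β γ δ : ℕ} (ha : α < l) (hb : β < l)
    (hc : γ < l) (hd : δ < l) (hs : α + β + γ + δ + 2 = 2 * l) :
    Real.log (p (SS l e (α + 1) (β + 1) γ δ)) + Real.log (p (SS l e α β (γ + 1) (δ + 1))) +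
      Real.log (p (SS l e (α + 1) β γ (δ + 1))) + Real.log (p (SS l e α (β + 1) (γ + 1) δ)) +
        2 * Real.log 2 ≤
      2 * Real.log (p (SS l e (α + 1) β (γ + 1) δ)) + 2 * Real.log (p (SS l e α (β + 1) γ (δ + 1))) := by
  have h := hp.three (SS l e α β γ δ) α (l + β) (2 * l + γ) (3 * l + δ)
    (SS_sub ha.le hb.le hc.le hd.le) (by rw [SS_card ha.le hb.le hc.le hd.le]; omega)
    (by omega) (by omega) (by omega) (by omega) (by rw [mem_SS]; omega) (by rw [mem_SS]; omega)
    (by rw [mem_SS]; omega) (by rw [mem_SS]; omega)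
  rw [← SS_c, ← SS_a, ← SS_d, ← SS_b, ← SS_b, ← SS_a, ← SS_c, ← SS_a, ← SS_b] at h
  exact log_amgm (pd_pos hp ha hb.le hc hd.le (by omega)) (pd_pos hp ha.le hb hc.le hd (by omega))
    (pd_pos hp ha hb hc.le hd.le (by omega)) (pd_pos hp ha.le hb.le hc hd (by omega))
    (pd_pos hp ha hb.le hc.le hd (by omega)) (pd_pos hp ha.le hb hc hd.le (by omega)) h

lemma log_lip {x y : ℝ} (hx : 0 < x) (hy : 0 < y) (h1 : x ≤ K * y) (h2 : y ≤ K * x) :
    |Real.log x - Real.log y| ≤ Real.log K := by
  have hK : 0 < K := by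
    by_contra h
    push Not at h
    nlinarith
  have a1 := Real.log_le_log hx h1
  have a2 := Real.log_le_log hy h2
  rw [Real.log_mul hK.ne' hy.ne'] at a1
  rw [Real.log_mul hK.ne' hx.ne'] at a2
  rw [abs_le]
  constructor <;> linarith

lemma pd_ac (hp : PluckerData (2 * l + e) (4 * l + e) K p) {α β γ δ : ℕ} (ha : α < l) (hb : β ≤ l)
    (hc : γ < l) (hd : δ ≤ l) (hs : α + β + γ + δ + 1 = 2 * l) :
    |Real.log (p (SS l e (α + 1) β γ δ)) - Real.log (p (SS l e α β (γ + 1) δ))| ≤ Real.log K := by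
  refine log_lip (pd_pos hp ha hb hc.le hd (by omega)) (pd_pos hp ha.le hb hc hd (by omega)) ?_ ?_
  · rw [SS_a, SS_c]
    exact hp.lip _ _ _ (SS_sub ha.le hb hc.le hd) (by rw [SS_card ha.le hb hc.le hd]; omega)
      (by omega) (by omega) (by rw [mem_SS]; omega) (by rw [mem_SS]; omega)
  · rw [SS_a, SS_c]
    exact hp.lip _ _ _ (SS_sub ha.le hb hc.le hd) (by rw [SS_card ha.le hb hc.le hd]; omega)
      (by omega) (by omega) (by rw [mem_SS]; omega) (by rw [mem_SS]; omega)

lemma pd_bd (hp : PluckerData (2 * l + e) (4 * l + e) K p) {α β γ δ : ℕ} (ha : α ≤ l) (hb : β < l)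
    (hc : γ ≤ l) (hd : δ < l) (hs : α + β + γ + δ + 1 = 2 * l) :
    |Real.log (p (SS l e α (β + 1) γ δ)) - Real.log (p (SS l e α β γ (δ + 1)))| ≤ Real.log K := by
  refine log_lip (pd_pos hp ha hb hc hd.le (by omega)) (pd_pos hp ha hb.le hc hd (by omega)) ?_ ?_
  · rw [SS_b, SS_d]
    exact hp.lip _ _ _ (SS_sub ha hb.le hc hd.le) (by rw [SS_card ha hb.le hc hd.le]; omega)
      (by omega) (by omega) (by rw [mem_SS]; omega) (by rw [mem_SS]; omega)
  · rw [SS_b, SS_d]
    exact hp.lip _ _ _ (SS_sub ha hb.le hc hd.le) (by rw [SS_card ha hb.le hc hd.le]; omega)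
      (by omega) (by omega) (by rw [mem_SS]; omega) (by rw [mem_SS]; omega)

lemma pd_ab (hp : PluckerData (2 * l + e) (4 * l + e) K p) {α β γ δ : ℕ} (ha : α < l) (hb : β < l)
    (hc : γ ≤ l) (hd : δ ≤ l) (hs : α + β + γ + δ + 1 = 2 * l) :
    |Real.log (p (SS l e (α + 1) β γ δ)) - Real.log (p (SS l e α (β + 1) γ δ))| ≤ Real.log K := by
  refine log_lip (pd_pos hp ha hb.le hc hd (by omega)) (pd_pos hp ha.le hb hc hd (by omega)) ?_ ?_
  · rw [SS_a, SS_b]
    exact hp.lip _ _ _ (SS_sub ha.le hb.le hc hd) (by rw [SS_card ha.le hb.le hc hd]; omega)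
      (by omega) (by omega) (by rw [mem_SS]; omega) (by rw [mem_SS]; omega)
  · rw [SS_a, SS_b]
    exact hp.lip _ _ _ (SS_sub ha.le hb.le hc hd) (by rw [SS_card ha.le hb.le hc hd]; omega)
      (by omega) (by omega) (by rw [mem_SS]; omega) (by rw [mem_SS]; omega)

lemma pd_cd (hp : PluckerData (2 * l + e) (4 * l + e) K p) {α β γ δ : ℕ} (ha : α ≤ l) (hb : β ≤ l)
    (hc : γ < l) (hd : δ < l) (hs : α + β + γ + δ + 1 = 2 * l) :
    |Real.log (p (SS l e α β (γ + 1) δ)) - Real.log (p (SS l e α β γ (δ + 1)))| ≤ Real.log K := by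
  refine log_lip (pd_pos hp ha hb hc hd.le (by omega)) (pd_pos hp ha hb hc.le hd (by omega)) ?_ ?_
  · rw [SS_c, SS_d]
    exact hp.lip _ _ _ (SS_sub ha hb hc.le hd.le) (by rw [SS_card ha hb hc.le hd.le]; omega)
      (by omega) (by omega) (by rw [mem_SS]; omega) (by rw [mem_SS]; omega)
  · rw [SS_c, SS_d]
    exact hp.lip _ _ _ (SS_sub ha hb hc.le hd.le) (by rw [SS_card ha hb hc.le hd.le]; omega)
      (by omega) (by omega) (by rw [mem_SS]; omega) (by rw [mem_SS]; omega)

/-- **The growth bound.** -/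
theorem growth (hp : PluckerData (2 * l + e) (4 * l + e) K p) {c : ℕ} (hc : 1 ≤ c)
    (hl : 4 * c ≤ l) : (2 * (c : ℝ) - 1) * Real.log 2 / 2 ≤ Real.log K := by
  have hK : 0 ≤ Real.log K := by
    refine (abs_nonneg _).trans (pd_ac hp (α := 0) (β := l - 1) (γ := 0) (δ := l) (by omega)
      (by omega) (by omega) (by omega) (by omega))
  have key := wave (2 * c - 1) c (by omega)
    (fun h u v => Real.log (p (SS l e (h + u - c) (l - h + v - c) (h + c - u) (l - h + c - v))))
    (fun h u v => Real.log (p (SS l e (h + 1 + u - c) (l - h + v - c) (h + c - u) (l - h + c - 1 - v))))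
    (Real.log K) (Real.log 2) hK ?_ ?_ ?_ ?_ ?_
  · rw [Nat.cast_sub (by omega)] at key
    push_cast at key
    exact key
  · intro h h1 h2 u v hu1 hu2 hv1 hv2
    have := pd_oct hp (α := h + u - c) (β := l - h + v - c - 1) (γ := h + c - u)
      (δ := l - h + c - v - 1) (by omega) (by omega) (by omega) (by omega) (by omega)
    have e1 : SS l e (h + u - c + 1) (l - h + v - c - 1 + 1) (h + c - u) (l - h + c - v - 1) =
        SS l e (h + 1 + u - c) (l - h + v - c) (h + c - u) (l - h + c - 1 - v) := by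
      congr 1 <;> omega
    have e2 : SS l e (h + u - c) (l - h + v - c - 1) (h + c - u + 1) (l - h + c - v - 1 + 1) =
        SS l e (h + 1 + (u - 1) - c) (l - h + (v - 1) - c) (h + c - (u - 1))
          (l - h + c - 1 - (v - 1)) := by
      congr 1 <;> omega
    have e3 : SS l e (h + u - c + 1) (l - h + v - c - 1) (h + c - u) (l - h + c - v - 1 + 1) =
        SS l e (h + 1 + u - c) (l - h + (v - 1) - c) (h + c - u) (l - h + c - 1 - (v - 1)) := by
      congr 1 <;> omega
    have e4 : SS l e (h + u - c) (l - h + v - c - 1 + 1) (h + c - u + 1) (l - h + c - v - 1) =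
        SS l e (h + 1 + (u - 1) - c) (l - h + v - c) (h + c - (u - 1)) (l - h + c - 1 - v) := by
      congr 1 <;> omega
    have e5 : SS l e (h + u - c + 1) (l - h + v - c - 1) (h + c - u + 1) (l - h + c - v - 1) =
        SS l e (h + 1 + u - c) (l - (h + 1) + v - c) (h + 1 + c - u) (l - (h + 1) + c - v) := by
      congr 1 <;> omega
    have e6 : SS l e (h + u - c) (l - h + v - c - 1 + 1) (h + c - u) (l - h + c - v - 1 + 1) =
        SS l e (h + u - c) (l - h + v - c) (h + c - u) (l - h + c - v) := by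
      congr 1 <;> omega
    rw [e1, e2, e3, e4, e5, e6] at this
    linarith
  · intro h h1 h2 u v hu hv
    have := pd_oct hp (α := h + 1 + u - c) (β := l - h + v - c - 1) (γ := h + c - u)
      (δ := l - h + c - 2 - v) (by omega) (by omega) (by omega) (by omega) (by omega)
    have e1 : SS l e (h + 1 + u - c + 1) (l - h + v - c - 1 + 1) (h + c - u) (l - h + c - 2 - v) =
        SS l e (h + 1 + (u + 1) - c) (l - (h + 1) + (v + 1) - c) (h + 1 + c - (u + 1))
          (l - (h + 1) + c - (v + 1)) := by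
      congr 1 <;> omega
    have e2 : SS l e (h + 1 + u - c) (l - h + v - c - 1) (h + c - u + 1) (l - h + c - 2 - v + 1) =
        SS l e (h + 1 + u - c) (l - (h + 1) + v - c) (h + 1 + c - u) (l - (h + 1) + c - v) := by
      congr 1 <;> omega
    have e3 : SS l e (h + 1 + u - c + 1) (l - h + v - c - 1) (h + c - u) (l - h + c - 2 - v + 1) =
        SS l e (h + 1 + (u + 1) - c) (l - (h + 1) + v - c) (h + 1 + c - (u + 1))
          (l - (h + 1) + c - v) := by
      congr 1 <;> omega
    have e4 : SS l e (h + 1 + u - c) (l - h + v - c - 1 + 1) (h + c - u + 1) (l - h + c - 2 - v) =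
        SS l e (h + 1 + u - c) (l - (h + 1) + (v + 1) - c) (h + 1 + c - u)
          (l - (h + 1) + c - (v + 1)) := by
      congr 1 <;> omega
    have e5 : SS l e (h + 1 + u - c + 1) (l - h + v - c - 1) (h + c - u + 1) (l - h + c - 2 - v) =
        SS l e (h + 1 + 1 + u - c) (l - (h + 1) + v - c) (h + 1 + c - u)
          (l - (h + 1) + c - 1 - v) := by
      congr 1 <;> omega
    have e6 : SS l e (h + 1 + u - c) (l - h + v - c - 1 + 1) (h + c - u) (l - h + c - 2 - v + 1) =
        SS l e (h + 1 + u - c) (l - h + v - c) (h + c - u) (l - h + c - 1 - v) := by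
      congr 1 <;> omega
    rw [e1, e2, e3, e4, e5, e6] at this
    linarith
  · intro h h1 h2 u hu v hv
    have := pd_ac hp (α := h + u - c) (β := l - h + v - c) (γ := h + c - u - 1) (δ := l - h + c - v)
      (by omega) (by omega) (by omega) (by omega) (by omega)
    have e1 : SS l e (h + u - c + 1) (l - h + v - c) (h + c - u - 1) (l - h + c - v) =
        SS l e (h + (u + 1) - c) (l - h + v - c) (h + c - (u + 1)) (l - h + c - v) := by
      congr 1 <;> omega
    have e2 : SS l e (h + u - c) (l - h + v - c) (h + c - u - 1 + 1) (l - h + c - v) =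
        SS l e (h + u - c) (l - h + v - c) (h + c - u) (l - h + c - v) := by congr 1; omega
    rw [e1, e2] at this
    exact this
  · intro h h1 h2 u hu v hv
    have := pd_bd hp (α := h + u - c) (β := l - h + v - c) (γ := h + c - u) (δ := l - h + c - v - 1)
      (by omega) (by omega) (by omega) (by omega) (by omega)
    have e1 : SS l e (h + u - c) (l - h + v - c + 1) (h + c - u) (l - h + c - v - 1) =
        SS l e (h + u - c) (l - h + (v + 1) - c) (h + c - u) (l - h + c - (v + 1)) := by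
      congr 1; omega
    have e2 : SS l e (h + u - c) (l - h + v - c) (h + c - u) (l - h + c - v - 1 + 1) =
        SS l e (h + u - c) (l - h + v - c) (h + c - u) (l - h + c - v) := by congr 1; omega
    rw [e1, e2] at this
    exact this
  · intro h h1 h2 u v hu hv
    have k1 := pd_ab hp (α := h + u - c) (β := l - h + v - c - 1) (γ := h + c - u)
      (δ := l - h + c - v) (by omega) (by omega) (by omega) (by omega) (by omega)
    have k2 := pd_cd hp (α := h + u - c + 1) (β := l - h + v - c - 1) (γ := h + c - u)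
      (δ := l - h + c - v - 1) (by omega) (by omega) (by omega) (by omega) (by omega)
    have e1 : SS l e (h + u - c) (l - h + v - c - 1 + 1) (h + c - u) (l - h + c - v) =
        SS l e (h + u - c) (l - h + v - c) (h + c - u) (l - h + c - v) := by congr 1; omega
    have e2 : SS l e (h + u - c + 1) (l - h + v - c - 1) (h + c - u) (l - h + c - v - 1 + 1) =
        SS l e (h + u - c + 1) (l - h + v - c - 1) (h + c - u) (l - h + c - v) := by congr 1; omega
    have e3 : SS l e (h + u - c + 1) (l - h + v - c - 1) (h + c - u + 1) (l - h + c - v - 1) =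
        SS l e (h + 1 + u - c) (l - (h + 1) + v - c) (h + 1 + c - u) (l - (h + 1) + c - v) := by
      congr 1 <;> omega
    rw [e1] at k1
    rw [e2, e3] at k2
    have b1 := abs_le.mp k1
    have b2 := abs_le.mp k2
    rw [abs_le]
    constructor <;> linarith [b1.1, b1.2, b2.1, b2.2]

end

end Pool.Agent.BalanWang
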