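import Pool.Agent.MP_686ee2_an.TP.Plucker
import Pool.Agent.MP_686ee2_an.TP.Sets

set_option autoImplicit false

open Finset Matrix

namespace Pool.Agent.BalanWang

section

variable {k r : ℕ}

/-- the determinant with rows `Y` and `w (u i)` -/
noncomputable def DD (Y : Fin k → (Fin k ⊕ Fin r → ℝ)) (w : ℕ → (Fin k ⊕ Fin r → ℝ))
    (u : Fin r → ℕ) : ℝ :=
  (Matrix.of (Sum.elim Y (fun i => w (u i)))).det

lemma DD_perm (Y : Fin k → (Fin k ⊕ Fin r → ℝ)) (w : ℕ → (Fin k ⊕ Fin r → ℝ))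
    (σ : Equiv.Perm (Fin r)) (u : Fin r → ℕ) :
    DD Y w (u ∘ σ) = (Equiv.Perm.sign σ : ℤ) * DD Y w u := by
  unfold DD
  have h := det_permute (Equiv.Perm.sumCongr (1 : Equiv.Perm (Fin k)) σ)
    (Matrix.of (Sum.elim Y (fun i => w (u i))))
  rw [Equiv.Perm.sign_sumCongr, Equiv.Perm.sign_one, one_mul] at h
  rw [← h]
  congr 1
  ext i j
  rcases i with i | i <;> simp

/-- the Vandermonde determinant of `u` -/
noncomputable def VV {r : ℕ} (u : Fin r → ℕ) : ℝ := (vandermonde (fun i => (u i : ℝ))).det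

lemma VV_perm (σ : Equiv.Perm (Fin r)) (u : Fin r → ℕ) :
    VV (u ∘ σ) = (Equiv.Perm.sign σ : ℤ) * VV u := by
  unfold VV
  have h := det_permute σ (vandermonde (fun i => (u i : ℝ)))
  rw [← h]
  congr 1

lemma VV_pos {u : Fin r → ℕ} (hu : StrictMono u) : 0 < VV u := by
  unfold VV
  rw [det_vandermonde]
  refine prod_pos fun i _ => prod_pos fun j hj => ?_
  rw [mem_Ioi] at hj
  have := hu hj
  have h2 : (u i : ℝ) < u j := by exact_mod_cast this
  linarith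

lemma VV_cons {r : ℕ} (a : ℕ) (u : Fin r → ℕ) :
    VV (Fin.cons a u : Fin (r + 1) → ℕ) = (∏ i, ((u i : ℝ) - a)) * VV u := by
  unfold VV
  rw [det_vandermonde, det_vandermonde, Fin.prod_univ_succ, Fin.prod_Ioi_zero]
  simp only [Fin.cons_zero, Fin.cons_succ]
  congr 1
  refine prod_congr rfl fun i _ => ?_
  rw [Fin.prod_Ioi_succ]
  simp only [Fin.cons_succ]

lemma sign_cast_sq (σ : Equiv.Perm (Fin r)) :
    ((Equiv.Perm.sign σ : ℤ) : ℝ) * ((Equiv.Perm.sign σ : ℤ) : ℝ) = 1 := by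
  rcases Int.units_eq_one_or (Equiv.Perm.sign σ) with h | h <;> rw [h] <;> simp

lemma sort_strictMono {u : Fin r → ℕ} (hu : Function.Injective u) :
    StrictMono (u ∘ Tuple.sort u) :=
  (Tuple.monotone_sort u).strictMono_of_injective (hu.comp (Tuple.sort u).injective)

variable {Y : Fin k → (Fin k ⊕ Fin r → ℝ)} {w : ℕ → (Fin k ⊕ Fin r → ℝ)} {ε : ℝ} {m : ℕ}

lemma DD_VV_pos
    (hpos : ∀ u : Fin r → ℕ, StrictMono u → (∀ i, u i < m) → 0 < ε * DD Y w u)
    {u : Fin r → ℕ} (hu : Function.Injective u) (hm : ∀ i, u i < m) :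
    0 < ε * DD Y w u * VV u := by
  have h1 := hpos _ (sort_strictMono hu) fun i => hm _
  have h2 := VV_pos (sort_strictMono hu)
  rw [DD_perm] at h1
  rw [VV_perm] at h2
  have h3 := mul_pos h1 h2
  have h4 := sign_cast_sq (Tuple.sort u)
  calc (0 : ℝ) < _ := h3
    _ = ε * DD Y w u * VV u * (((Equiv.Perm.sign (Tuple.sort u) : ℤ) : ℝ) *
        ((Equiv.Perm.sign (Tuple.sort u) : ℤ) : ℝ)) := by ring
    _ = _ := by rw [h4, mul_one]

/-- absolute value of the Plücker coordinate of a set -/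
noncomputable def pp (Y : Fin k → (Fin k ⊕ Fin r → ℝ)) (w : ℕ → (Fin k ⊕ Fin r → ℝ))
    (S : Finset ℕ) : ℝ :=
  if h : S.card = r then |DD Y w (S.orderEmbOfFin h)| else 0

lemma pp_eq (Y : Fin k → (Fin k ⊕ Fin r → ℝ)) (w : ℕ → (Fin k ⊕ Fin r → ℝ))
    {u : Fin r → ℕ} (hu : Function.Injective u) {S : Finset ℕ} (hS : ∀ i, u i ∈ S)
    (hc : S.card = r) : pp Y w S = |DD Y w u| := by
  unfold pp
  rw [dif_pos hc]
  have h := orderEmbOfFin_unique hc (f := u ∘ Tuple.sort u) (fun i => hS _) (sort_strictMono hu)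
  rw [← h, DD_perm, abs_mul]
  have h4 : |((Equiv.Perm.sign (Tuple.sort u) : ℤ) : ℝ)| = 1 := by
    rcases Int.units_eq_one_or (Equiv.Perm.sign (Tuple.sort u)) with h | h <;> rw [h] <;> simp
  rw [h4, one_mul]

end

end Pool.Agent.BalanWang
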