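import Pool.Agent.MP_686ee2_an.TP.Data

set_option autoImplicit false

open Finset Matrix

namespace Pool.Agent.BalanWang

lemma abs_of_signs {x y z P : ℝ} (hx : 0 < x * P) (hy : 0 < y * P) (hz : 0 < z * P)
    (h : x = y + z) : |x| = |y| + |z| := by
  rcases lt_trichotomy P 0 with hP | hP | hP
  · have h1 : x < 0 := by nlinarith
    have h2 : y < 0 := by nlinarith
    have h3 : z < 0 := by nlinarith
    rw [abs_of_neg h1, abs_of_neg h2, abs_of_neg h3]
    linarith
  · rw [hP, mul_zero] at hx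
    exact absurd hx (lt_irrefl _)
  · have h1 : 0 < x := by nlinarith
    have h2 : 0 < y := by nlinarith
    have h3 : 0 < z := by nlinarith
    rw [abs_of_pos h1, abs_of_pos h2, abs_of_pos h3]
    linarith

section

variable {k s : ℕ} {Y : Fin k → (Fin k ⊕ Fin (s + 2) → ℝ)} {w : ℕ → (Fin k ⊕ Fin (s + 2) → ℝ)}
  {ε : ℝ} {m : ℕ}

/-- two elements in front -/
def c2 {s : ℕ} (x : Fin s → ℕ) (a b : ℕ) : Fin (s + 2) → ℕ := Fin.cons a (Fin.cons b x)

lemma c2_inj {s : ℕ} {x : Fin s → ℕ} (hx : Function.Injective x) {a b : ℕ} (hab : a ≠ b)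
    (ha : ∀ i, x i ≠ a) (hb : ∀ i, x i ≠ b) : Function.Injective (c2 x a b) := by
  unfold c2
  rw [Fin.cons_injective_iff, Fin.cons_injective_iff]
  refine ⟨?_, ?_, hx⟩
  · rintro ⟨i, hi⟩
    refine Fin.cases ?_ (fun j => ?_) i hi
    · intro h
      exact hab h.symm
    · intro h
      exact ha j h
  · rintro ⟨i, hi⟩
    exact hb i hi

lemma c2_forall {s : ℕ} {x : Fin s → ℕ} {a b : ℕ} {q : ℕ → Prop} (ha : q a) (hb : q b)
    (hx : ∀ i, q (x i)) : ∀ i, q (c2 x a b i) := by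
  intro i
  unfold c2
  refine Fin.cases ?_ (fun j => ?_) i
  · exact ha
  · refine Fin.cases ?_ (fun l => ?_) j
    · exact hb
    · exact hx l

lemma VV_c2 {s : ℕ} (x : Fin s → ℕ) (a b : ℕ) :
    VV (c2 x a b) = ((b : ℝ) - a) * (∏ i, ((x i : ℝ) - a)) * (∏ i, ((x i : ℝ) - b)) * VV x := by
  unfold c2
  rw [VV_cons, VV_cons, Fin.prod_univ_succ]
  simp only [Fin.cons_zero, Fin.cons_succ]
  ring

lemma DD_c2 (x : Fin s → ℕ) (a b : ℕ) :
    DD Y w (c2 x a b) = WW (Matrix.of (Sum.elim Y (fun i => w (c2 x 0 0 i)))) (Sum.inr 0)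
      (Sum.inr 1) (w a) (w b) := by
  unfold DD WW
  congr 1
  ext i j
  rcases i with i | i
  · rw [updateRow_ne (by simp), updateRow_ne (by simp)]
    simp
  · refine Fin.cases ?_ (fun i => ?_) i
    · rw [updateRow_ne (by simp), updateRow_self]
      simp [c2]
    · refine Fin.cases ?_ (fun i => ?_) i
      · have : (Sum.inr (Fin.succ 0) : Fin k ⊕ Fin (s + 2)) = Sum.inr 1 := rfl
        rw [this, updateRow_self]
        rfl
      · rw [updateRow_ne, updateRow_ne]
        · rfl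
        · intro h
          rw [Sum.inr.injEq] at h
          exact Fin.succ_ne_zero _ h
        · intro h
          rw [Sum.inr.injEq] at h
          exact Fin.succ_ne_zero i (Fin.succ_injective _ h)

lemma three_term
    (hpos : ∀ u : Fin (s + 2) → ℕ, StrictMono u → (∀ i, u i < m) → 0 < ε * DD Y w u)
    {X : Finset ℕ} {a b c d : ℕ} (hX : X ⊆ range m) (hXc : X.card = s) (hab : a < b) (hbc : b < c)
    (hcd : c < d) (hd : d < m) (haX : a ∉ X) (hbX : b ∉ X) (hcX : c ∉ X) (hdX : d ∉ X) :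
    pp Y w (insert a (insert c X)) * pp Y w (insert b (insert d X)) =
      pp Y w (insert a (insert b X)) * pp Y w (insert c (insert d X)) +
        pp Y w (insert a (insert d X)) * pp Y w (insert b (insert c X)) := by
  set x : Fin s → ℕ := ⇑(X.orderEmbOfFin hXc) with hx
  have hxX : ∀ i, x i ∈ X := fun i => orderEmbOfFin_mem _ _ _
  have hxm : ∀ i, x i < m := fun i => mem_range.mp (hX (hxX i))
  have hxi : Function.Injective x := (X.orderEmbOfFin hXc).injective
  have hne : ∀ {e : ℕ}, e ∉ X → ∀ i, x i ≠ e := by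
    intro e he i h
    exact he (h ▸ hxX i)
  have hpp : ∀ {e f : ℕ}, e ≠ f → e ∉ X → f ∉ X →
      pp Y w (insert e (insert f X)) = |DD Y w (c2 x e f)| := by
    intro e f hef he hf
    refine pp_eq Y w (c2_inj hxi hef (hne he) (hne hf)) ?_ ?_
    · refine c2_forall ?_ ?_ ?_
      · simp
      · simp
      · intro i
        simp [hxX i]
    · rw [card_insert_of_notMem, card_insert_of_notMem hf, hXc]
      rw [mem_insert, not_or]
      exact ⟨hef, he⟩
  have hsg : ∀ {e f : ℕ}, e < f → e < m → f < m → e ∉ X → f ∉ X →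
      0 < ε * DD Y w (c2 x e f) * ((∏ i, ((x i : ℝ) - e)) * (∏ i, ((x i : ℝ) - f)) * VV x) := by
    intro e f hef he' hf' he hf
    have h1 := DD_VV_pos hpos (c2_inj hxi hef.ne (hne he) (hne hf)) (c2_forall (q := fun t => t < m) he' hf' hxm)
    rw [VV_c2] at h1
    have h2 : (0 : ℝ) < (f : ℝ) - e := by
      have : (e : ℝ) < f := by exact_mod_cast hef
      linarith
    have h3 : ε * DD Y w (c2 x e f) * (((f : ℝ) - e) * (∏ i, ((x i : ℝ) - e)) *
        (∏ i, ((x i : ℝ) - f)) * VV x) = ((f : ℝ) - e) * (ε * DD Y w (c2 x e f) *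
        ((∏ i, ((x i : ℝ) - e)) * (∏ i, ((x i : ℝ) - f)) * VV x)) := by ring
    rw [h3] at h1
    exact (pos_iff_pos_of_mul_pos h1).mp h2
  rw [hpp (by omega) haX hcX, hpp (by omega) hbX hdX, hpp (by omega) haX hbX,
    hpp (by omega) hcX hdX, hpp (by omega) haX hdX, hpp (by omega) hbX hcX]
  rw [← abs_mul, ← abs_mul, ← abs_mul]
  have hpl := plucker3 (Matrix.of (Sum.elim Y (fun i => w (c2 x 0 0 i))))
    (p := Sum.inr 0) (q := Sum.inr 1) (by simp) (w a) (w b) (w c) (w d)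
  simp only [← DD_c2] at hpl
  set pa := ∏ i, ((x i : ℝ) - a)
  set pb := ∏ i, ((x i : ℝ) - b)
  set pc := ∏ i, ((x i : ℝ) - c)
  set pd := ∏ i, ((x i : ℝ) - d)
  have s1 := mul_pos (hsg (hab.trans hbc) (by omega) (by omega) haX hcX)
    (hsg (hbc.trans hcd) (by omega) (by omega) hbX hdX)
  have s2 := mul_pos (hsg hab (by omega) (by omega) haX hbX)
    (hsg hcd (by omega) (by omega) hcX hdX)
  have s3 := mul_pos (hsg (hab.trans (hbc.trans hcd)) (by omega) (by omega) haX hdX)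
    (hsg hbc (by omega) (by omega) hbX hcX)
  refine abs_of_signs (P := ε ^ 2 * (pa * pb * pc * pd * VV x ^ 2)) ?_ ?_ ?_ hpl
  · calc (0 : ℝ) < _ := s1
      _ = _ := by ring
  · calc (0 : ℝ) < _ := s2
      _ = _ := by ring
  · calc (0 : ℝ) < _ := s3
      _ = _ := by ring

end

section

variable {k r : ℕ} {Y : Fin k → (Fin k ⊕ Fin r → ℝ)} {w : ℕ → (Fin k ⊕ Fin r → ℝ)}
  {ε : ℝ} {m : ℕ} {K : ℝ}

lemma pp_pos
    (hpos : ∀ u : Fin r → ℕ, StrictMono u → (∀ i, u i < m) → 0 < ε * DD Y w u)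
    {S : Finset ℕ} (hS : S ⊆ range m) (hc : S.card = r) : 0 < pp Y w S := by
  unfold pp
  rw [dif_pos hc]
  have h := hpos _ (S.orderEmbOfFin hc).strictMono
    fun i => mem_range.mp (hS (orderEmbOfFin_mem _ _ _))
  rw [abs_pos]
  intro h0
  rw [h0, mul_zero] at h
  exact lt_irrefl _ h

theorem pluckerData
    (hpos : ∀ u : Fin r → ℕ, StrictMono u → (∀ i, u i < m) → 0 < ε * DD Y w u)
    (hlip : ∀ u v : Fin r → ℕ, Function.Injective u → Function.Injective v → (∀ i, u i < m) →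
      (∀ i, v i < m) → (∃ i₀, ∀ i, i ≠ i₀ → u i = v i) → |DD Y w v| ≤ K * |DD Y w u|) :
    PluckerData r m K (pp Y w) := by
  refine ⟨fun S hS hc => pp_pos hpos hS hc, ?_, ?_⟩
  · intro X a b c d hX hXc hab hbc hcd hd haX hbX hcX hdX
    subst hXc
    exact three_term hpos hX rfl hab hbc hcd hd haX hbX hcX hdX
  · intro T i j hT hTc hi hj hiT hjT
    obtain ⟨s, rfl⟩ : ∃ s, r = s + 1 := ⟨T.card, hTc.symm⟩
    have hTs : T.card = s := by omega
    set t : Fin s → ℕ := ⇑(T.orderEmbOfFin hTs) with ht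
    have htT : ∀ l, t l ∈ T := fun l => orderEmbOfFin_mem _ _ _
    have hti : Function.Injective t := (T.orderEmbOfFin hTs).injective
    have hinj : ∀ {e : ℕ}, e ∉ T → Function.Injective (Fin.cons e t : Fin (s + 1) → ℕ) := by
      intro e he
      rw [Fin.cons_injective_iff]
      refine ⟨?_, hti⟩
      rintro ⟨l, hl⟩
      exact he (hl ▸ htT l)
    have hpp : ∀ {e : ℕ}, e ∉ T → pp Y w (insert e T) = |DD Y w (Fin.cons e t)| := by
      intro e he
      refine pp_eq Y w (hinj he) ?_ ?_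
      · intro l
        refine Fin.cases ?_ (fun l => ?_) l
        · simp
        · simp [htT l]
      · rw [card_insert_of_notMem he, hTs]
    have hm : ∀ {e : ℕ}, e < m → ∀ l, (Fin.cons e t : Fin (s + 1) → ℕ) l < m := by
      intro e he l
      refine Fin.cases ?_ (fun l => ?_) l
      · exact he
      · exact mem_range.mp (hT (htT l))
    rw [hpp hiT, hpp hjT]
    refine hlip _ _ (hinj hiT) (hinj hjT) (hm hi) (hm hj) ⟨0, fun l hl => ?_⟩
    obtain ⟨l, rfl⟩ := Fin.exists_succ_eq.mpr hl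
    rfl

lemma PluckerData.mono {r m m' : ℕ} {K : ℝ} {p : Finset ℕ → ℝ} (h : PluckerData r m K p)
    (hm : m' ≤ m) : PluckerData r m' K p := by
  have hs : range m' ⊆ range m := range_subset_range.mpr hm
  refine ⟨fun S hS hc => h.pos S (hS.trans hs) hc, ?_, ?_⟩
  · intro X a b c d hX hXc hab hbc hcd hd haX hbX hcX hdX
    exact h.three X a b c d (hX.trans hs) hXc hab hbc hcd (by omega) haX hbX hcX hdX
  · intro T i j hT hTc hi hj hiT hjT
    exact h.lip T i j (hT.trans hs) hTc (by omega) (by omega) hiT hjT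

/-- final numerical form: `K` is at least `2^{r/8} / 3` -/
theorem growth_final {r : ℕ} {K : ℝ} {p : Finset ℕ → ℝ} (hr : 9 ≤ r)
    (h : PluckerData r (2 * r - 1) K p) : ((r : ℝ) - 12) / 8 * Real.log 2 ≤ Real.log K := by
  obtain ⟨l, e, he, hle⟩ : ∃ l e : ℕ, (e = 1 ∨ e = 2) ∧ r = 2 * l + e := by
    rcases Nat.even_or_odd' r with ⟨l, hl | hl⟩
    · exact ⟨l - 1, 2, Or.inr rfl, by omega⟩
    · exact ⟨l, 1, Or.inl rfl, by omega⟩
  have h1 : PluckerData (2 * l + e) (4 * l + e) K p := by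
    rw [← hle]
    exact h.mono (by omega)
  have h2 := growth h1 (c := l / 4) (by omega) (by omega)
  refine le_trans ?_ h2
  have h3 : (l : ℝ) ≤ 4 * ((l / 4 : ℕ) : ℝ) + 3 := by
    have : l ≤ 4 * (l / 4) + 3 := by omega
    exact_mod_cast this
  have h4 : (r : ℝ) ≤ 2 * l + 2 := by
    have : r ≤ 2 * l + 2 := by omega
    exact_mod_cast this
  have h5 : 0 < Real.log 2 := Real.log_pos (by norm_num)
  have h6 : ((r : ℝ) - 12) / 8 ≤ (2 * ((l / 4 : ℕ) : ℝ) - 1) / 2 := by linarith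
  calc ((r : ℝ) - 12) / 8 * Real.log 2 ≤ (2 * ((l / 4 : ℕ) : ℝ) - 1) / 2 * Real.log 2 := by gcongr
    _ = _ := by ring

end

end Pool.Agent.BalanWang
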