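import Pool.Agent.MP_686ee2_an.TP.Data2

set_option autoImplicit false

open Finset Matrix

namespace Pool.Agent.BalanWang

/-- A singular set of `M` rows gives the value zero. -/
lemma singular_case {k r : ℕ} (A : Matrix (Fin (2 * (k + r) - 1)) (Fin (k + r)) ℝ)
    (eqv : Fin k ⊕ Fin r ≃ Fin (k + r)) (ρ : Fin k ⊕ Fin r → Fin (2 * (k + r) - 1))
    (h : (A.submatrix ρ eqv).det = 0) :
    ∃ x : Fin (k + r) → ℝ, ∑ j, x j ^ 2 = 1 ∧ ∑ l ∈ univ.image ρ, (∑ j, A l j * x j) ^ 2 = 0 := by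
  obtain ⟨v, hv0, hv⟩ := exists_mulVec_eq_zero_iff.mpr h
  have hpos : 0 < ∑ j, v j ^ 2 := by
    refine (sum_nonneg fun j _ => sq_nonneg _).lt_of_ne' fun h0 => hv0 ?_
    rw [sum_eq_zero_iff_of_nonneg fun j _ => sq_nonneg _] at h0
    funext j
    exact pow_eq_zero_iff (two_ne_zero) |>.mp (h0 j (mem_univ j))
  set c := Real.sqrt (∑ j, v j ^ 2) with hc
  have hc0 : 0 < c := Real.sqrt_pos.mpr hpos
  have hc2 : c ^ 2 = ∑ j, v j ^ 2 := Real.sq_sqrt hpos.le
  refine ⟨fun j => v (eqv.symm j) / c, ?_, ?_⟩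
  · simp only [div_pow]
    rw [← sum_div, Equiv.sum_comp eqv.symm (fun j => v j ^ 2), hc2, div_self hpos.ne']
  · refine sum_eq_zero fun l hl => ?_
    rw [mem_image] at hl
    obtain ⟨i, -, rfl⟩ := hl
    have h1 := congrFun hv i
    rw [mulVec, dotProduct] at h1
    simp only [submatrix_apply, Pi.zero_apply] at h1
    have h2 : ∑ j, A (ρ i) j * (v (eqv.symm j) / c) = 0 := by
      rw [← Equiv.sum_comp eqv]
      simp only [Equiv.symm_apply_apply, mul_div_assoc']
      rw [← sum_div, h1, zero_div]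
    rw [h2]
    norm_num

lemma rank_compl {k r : ℕ} (hM : 1 < k + r)
    (A : Matrix (Fin (2 * (k + r) - 1)) (Fin (k + r)) ℝ)
    {ρ : Fin k ⊕ Fin r → Fin (2 * (k + r) - 1)} (hρ : Function.Injective ρ) :
    Module.finrank ℝ (Submodule.span ℝ
      (Set.range (fun i : {i : Fin (2 * (k + r) - 1) // i ∉ univ.image ρ} => A i.1))) < k + r := by
  have h1 := finrank_range_le_card (R := ℝ)
    (fun i : {i : Fin (2 * (k + r) - 1) // i ∉ univ.image ρ} => A i.1)
  have h2 : Fintype.card {i : Fin (2 * (k + r) - 1) // i ∉ univ.image ρ} = k + r - 1 := by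
    rw [Fintype.card_subtype_compl, Fintype.card_coe, card_image_of_injective _ hρ]
    simp only [Fintype.card_fin, card_univ, Fintype.card_sum]
    omega
  rw [Set.finrank, h2] at h1
  omega

lemma log_three : 3 * Real.log 2 < 2 * Real.log 3 := by
  have h1 : (3 : ℝ) * Real.log 2 = Real.log 8 := by
    rw [show (8 : ℝ) = 2 ^ 3 by norm_num, Real.log_pow]; norm_num
  have h2 : (2 : ℝ) * Real.log 3 = Real.log 9 := by
    rw [show (9 : ℝ) = 3 ^ 2 by norm_num, Real.log_pow]; norm_num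
  rw [h1, h2]
  exact Real.log_lt_log (by norm_num) (by norm_num)

theorem main_general {k r : ℕ} (hM : 1 < k + r) (hr : 0 < r)
    (A : Matrix (Fin (2 * (k + r) - 1)) (Fin (k + r)) ℝ)
    (eqv : Fin k ⊕ Fin r ≃ Fin (k + r))
    (y : Fin k → Fin (2 * (k + r) - 1)) (z : Fin (2 * r - 1) → Fin (2 * (k + r) - 1))
    (hyz : Function.Injective (Sum.elim y z)) (ε : ℝ) (hε : ε ≠ 0)
    (hpos : ∀ s : Fin r → Fin (2 * r - 1), StrictMono s →
      0 ≤ ε * (A.submatrix (Sum.elim y (z ∘ s)) eqv).det) :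
    ∃ S : Finset (Fin (2 * (k + r) - 1)),
      Module.finrank ℝ (Submodule.span ℝ
        (Set.range (fun i : {i : Fin (2 * (k + r) - 1) // i ∉ S} => A i.1))) < k + r ∧
      ∃ x : Fin (k + r) → ℝ, ∑ j, x j ^ 2 = 1 ∧ ∃ i : Fin (2 * (k + r) - 1),
        Real.sqrt (∑ l ∈ S, (∑ j, A l j * x j) ^ 2) ≤
          3 * Real.sqrt (∑ j, A i j ^ 2) * (1 / 2 : ℝ) ^ ((r : ℝ) / 8) := by
  -- distinct rows
  have hinj : ∀ s : Fin r → Fin (2 * r - 1), Function.Injective s →
      Function.Injective (Sum.elim y (z ∘ s)) := by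
    intro s hs
    have : Sum.elim y (z ∘ s) = Sum.elim y z ∘ Sum.map id s := by
      funext i
      rcases i with i | i <;> rfl
    rw [this]
    exact hyz.comp (Sum.map_injective.mpr ⟨Function.injective_id, hs⟩)
  by_cases hsing : ∃ s : Fin r → Fin (2 * r - 1), StrictMono s ∧
      (A.submatrix (Sum.elim y (z ∘ s)) eqv).det = 0
  · obtain ⟨s, hs, h0⟩ := hsing
    obtain ⟨x, hx, hx0⟩ := singular_case A eqv _ h0
    refine ⟨univ.image (Sum.elim y (z ∘ s)), rank_compl hM A (hinj s hs.injective), x, hx,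
      ⟨0, by omega⟩, ?_⟩
    rw [hx0, Real.sqrt_zero]
    positivity
  push Not at hsing
  by_contra hcon
  push Not at hcon
  set δ : ℝ := 3 * (1 / 2 : ℝ) ^ ((r : ℝ) / 8) with hδ
  have hδ0 : 0 < δ := by positivity
  set Y : Fin k → (Fin k ⊕ Fin r → ℝ) := fun i j => A (y i) (eqv j) with hY
  set w : ℕ → (Fin k ⊕ Fin r → ℝ) := fun a j =>
    if h : a < 2 * r - 1 then A (z ⟨a, h⟩) (eqv j) else 0 with hw
  have hrow : ∀ (u : Fin r → ℕ) (hu : ∀ i, u i < 2 * r - 1),
      Matrix.of (Sum.elim Y (fun i => w (u i))) =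
        A.submatrix (Sum.elim y (z ∘ fun i => ⟨u i, hu i⟩)) eqv := by
    intro u hu
    ext i j
    rcases i with i | i
    · rfl
    · simp only [of_apply, Sum.elim_inr, submatrix_apply, Function.comp_apply, hw]
      rw [dif_pos (hu i)]
  have hD : ∀ (u : Fin r → ℕ) (hu : ∀ i, u i < 2 * r - 1),
      DD Y w u = (A.submatrix (Sum.elim y (z ∘ fun i => ⟨u i, hu i⟩)) eqv).det := by
    intro u hu
    unfold DD
    rw [hrow u hu]
  have hposD : ∀ u : Fin r → ℕ, StrictMono u → (∀ i, u i < 2 * r - 1) → 0 < ε * DD Y w u := by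
    intro u hu hm
    rw [hD u hm]
    have hs : StrictMono fun i => (⟨u i, hm i⟩ : Fin (2 * r - 1)) := fun i j hij => hu hij
    exact lt_of_le_of_ne (hpos _ hs) (mul_ne_zero hε (hsing _ hs)).symm
  have hlip : ∀ u v : Fin r → ℕ, Function.Injective u → Function.Injective v →
      (∀ i, u i < 2 * r - 1) → (∀ i, v i < 2 * r - 1) → (∃ i₀, ∀ i, i ≠ i₀ → u i = v i) →
      |DD Y w v| ≤ 1 / δ * |DD Y w u| := by
    rintro u v hu - hum hvm ⟨i₀, hi₀⟩
    set R : Matrix (Fin k ⊕ Fin r) (Fin k ⊕ Fin r) ℝ :=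
      Matrix.of (Sum.elim Y (fun i => w (u i))) with hR
    set q : Fin k ⊕ Fin r := Sum.inr i₀ with hq
    set c : Fin k ⊕ Fin r → ℝ := fun j => (R.updateRow q (Pi.single j 1)).det with hc
    have hlin : ∀ t : Fin k ⊕ Fin r → ℝ, (R.updateRow q t).det = ∑ j, t j * c j :=
      fun t => det_updateRow_eq_sum R q t
    have e1 : DD Y w u = ∑ j, R q j * c j := by
      rw [← hlin, updateRow_eq_self]
      rfl
    have e2 : DD Y w v = ∑ j, w (v i₀) j * c j := by
      rw [← hlin]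
      unfold DD
      congr 1
      ext i j
      by_cases hi : i = q
      · subst hi
        rw [updateRow_self]
        rfl
      · rw [updateRow_ne hi]
        rcases i with i | i
        · rfl
        · have hii : i ≠ i₀ := fun h => hi (by rw [h])
          simp only [hR, of_apply, Sum.elim_inr]
          rw [hi₀ i hii]
    have e3 : ∀ i, i ≠ q → ∑ j, R i j * c j = 0 := by
      intro i hi
      rw [← hlin]
      exact det_updateRow_eq_zero hi
    have hDu : DD Y w u ≠ 0 := by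
      have := DD_VV_pos hposD hu hum
      intro h0
      rw [h0] at this
      simp at this
    have hcpos : 0 < ∑ j, c j ^ 2 := by
      refine (sum_nonneg fun j _ => sq_nonneg _).lt_of_ne' fun h0 => hDu ?_
      rw [sum_eq_zero_iff_of_nonneg fun j _ => sq_nonneg _] at h0
      rw [e1]
      refine sum_eq_zero fun j hj => ?_
      rw [pow_eq_zero_iff two_ne_zero |>.mp (h0 j hj), mul_zero]
    set C := Real.sqrt (∑ j, c j ^ 2) with hC
    have hC0 : 0 < C := Real.sqrt_pos.mpr hcpos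
    have hC2 : C ^ 2 = ∑ j, c j ^ 2 := Real.sq_sqrt hcpos.le
    set ρ : Fin k ⊕ Fin r → Fin (2 * (k + r) - 1) :=
      Sum.elim y (z ∘ fun i => ⟨u i, hum i⟩) with hρ
    have hρinj : Function.Injective ρ := hinj _ fun i j hij => hu (by simpa using hij)
    have hRρ : ∀ i j, R i j = A (ρ i) (eqv j) := by
      intro i j
      rw [hR, hrow u hum]
      rfl
    have hx1 : ∑ j, (c (eqv.symm j) / C) ^ 2 = 1 := by
      simp only [div_pow]
      rw [← sum_div, Equiv.sum_comp eqv.symm (fun j => c j ^ 2), hC2, div_self hcpos.ne']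
    have hcon1 := hcon (univ.image ρ) (rank_compl hM A hρinj) (fun j => c (eqv.symm j) / C) hx1
      (z ⟨v i₀, hvm i₀⟩)
    have hval : ∑ l ∈ univ.image ρ, (∑ j, A l j * (c (eqv.symm j) / C)) ^ 2 =
        (DD Y w u / C) ^ 2 := by
      rw [sum_image fun a _ b _ hab => hρinj hab]
      have hin : ∀ i, ∑ j, A (ρ i) j * (c (eqv.symm j) / C) = (∑ j, R i j * c j) / C := by
        intro i
        rw [← Equiv.sum_comp eqv, sum_div]
        refine sum_congr rfl fun j _ => ?_
        rw [Equiv.symm_apply_apply, hRρ, mul_div_assoc]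
      simp_rw [hin]
      rw [sum_eq_single q]
      · rw [← e1]
      · intro i _ hi
        rw [e3 i hi]
        simp
      · intro h
        exact absurd (mem_univ q) h
    rw [hval, Real.sqrt_sq_eq_abs, abs_div, abs_of_pos hC0] at hcon1
    have hCS : |DD Y w v| ≤ Real.sqrt (∑ j, A (z ⟨v i₀, hvm i₀⟩) j ^ 2) * C := by
      rw [e2]
      have hcs := sum_mul_sq_le_sq_mul_sq univ (w (v i₀)) c
      have hwn : ∑ j, w (v i₀) j ^ 2 = ∑ j, A (z ⟨v i₀, hvm i₀⟩) j ^ 2 := by
        rw [← Equiv.sum_comp eqv (fun j => A (z ⟨v i₀, hvm i₀⟩) j ^ 2)]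
        refine sum_congr rfl fun j _ => ?_
        simp only [hw]
        rw [dif_pos (hvm i₀)]
      rw [hwn] at hcs
      rw [hC, ← Real.sqrt_mul (sum_nonneg fun j _ => sq_nonneg _)]
      exact Real.abs_le_sqrt hcs
    rw [lt_div_iff₀ hC0] at hcon1
    rw [one_div, inv_mul_eq_div, le_div_iff₀ hδ0]
    have h4 : 0 ≤ Real.sqrt (∑ j, A (z ⟨v i₀, hvm i₀⟩) j ^ 2) := Real.sqrt_nonneg _
    calc |DD Y w v| * δ ≤ Real.sqrt (∑ j, A (z ⟨v i₀, hvm i₀⟩) j ^ 2) * C * δ := by gcongr
      _ = 3 * Real.sqrt (∑ j, A (z ⟨v i₀, hvm i₀⟩) j ^ 2) * (1 / 2 : ℝ) ^ ((r : ℝ) / 8) * C := by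
        rw [hδ]; ring
      _ ≤ |DD Y w u| := hcon1.le
  have hlogδ : Real.log (1 / δ) = -Real.log 3 + (r : ℝ) / 8 * Real.log 2 := by
    rw [one_div, Real.log_inv, hδ, Real.log_mul (by norm_num) (by positivity),
      Real.log_rpow (by norm_num), one_div, Real.log_inv]
    ring
  have hl2 : 0 < Real.log 2 := Real.log_pos (by norm_num)
  have hl3 := log_three
  rcases Nat.lt_or_ge r 9 with h9 | h9
  · -- small rank
    have h1 := hlip (fun i => (i : ℕ)) (fun i => (i : ℕ)) Fin.val_injective Fin.val_injective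
      (fun i => by omega) (fun i => by omega) ⟨⟨0, hr⟩, fun i _ => rfl⟩
    have h2 : DD Y w (fun i => (i : ℕ)) ≠ 0 := by
      have := hposD (fun i => (i : ℕ)) (fun i j hij => hij) (fun i => by omega)
      intro h0
      rw [h0] at this
      simp at this
    have h3 : 0 < |DD Y w (fun i => (i : ℕ))| := abs_pos.mpr h2
    have h4 : 1 ≤ 1 / δ := by
      by_contra h
      push Not at h
      nlinarith
    have h5 := Real.log_nonneg h4
    rw [hlogδ] at h5
    have h6 : (r : ℝ) ≤ 8 := by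
      have : r ≤ 8 := by omega
      exact_mod_cast this
    nlinarith
  · have hp := pluckerData hposD hlip
    have h1 := growth_final h9 hp
    rw [hlogδ] at h1
    nlinarith

end Pool.Agent.BalanWang

namespace Pool.Agent.BalanWang

/-- The version with reorientations. -/
theorem main_reorient {k r : ℕ} (hM : 1 < k + r) (hr : 0 < r)
    (A : Matrix (Fin (2 * (k + r) - 1)) (Fin (k + r)) ℝ)
    (eqv : Fin k ⊕ Fin r ≃ Fin (k + r))
    (y : Fin k → Fin (2 * (k + r) - 1)) (z : Fin (2 * r - 1) → Fin (2 * (k + r) - 1))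
    (hyz : Function.Injective (Sum.elim y z)) (ε : ℝ) (hε : ε ≠ 0)
    (η : Fin (2 * r - 1) → ℝ) (hη : ∀ i, η i ≠ 0)
    (hpos : ∀ s : Fin r → Fin (2 * r - 1), StrictMono s →
      0 ≤ ε * (∏ i, η (s i)) * (A.submatrix (Sum.elim y (z ∘ s)) eqv).det) :
    ∃ S : Finset (Fin (2 * (k + r) - 1)),
      Module.finrank ℝ (Submodule.span ℝ
        (Set.range (fun i : {i : Fin (2 * (k + r) - 1) // i ∉ S} => A i.1))) < k + r ∧
      ∃ x : Fin (k + r) → ℝ, ∑ j, x j ^ 2 = 1 ∧ ∃ i : Fin (2 * (k + r) - 1),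
        Real.sqrt (∑ l ∈ S, (∑ j, A l j * x j) ^ 2) ≤
          3 * Real.sqrt (∑ j, A i j ^ 2) * (1 / 2 : ℝ) ^ ((r : ℝ) / 8) := by
  classical
  have hzinj : Function.Injective z := fun a b hab => by
    have := hyz (a₁ := Sum.inr a) (a₂ := Sum.inr b) hab
    simpa using this
  have hyz' : ∀ i j, y i ≠ z j := fun i j hij => by
    have := hyz (a₁ := Sum.inl i) (a₂ := Sum.inr j) hij
    simp at this
  set σ : Fin (2 * (k + r) - 1) → ℝ := fun l =>
    if h : ∃ i, z i = l then (if 0 < η h.choose then 1 else -1) else 1 with hσ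
  have hσz : ∀ i, σ (z i) = if 0 < η i then 1 else -1 := by
    intro i
    simp only [hσ]
    have h : ∃ j, z j = z i := ⟨i, rfl⟩
    rw [dif_pos h]
    have : h.choose = i := hzinj h.choose_spec
    rw [this]
  have hσy : ∀ i, σ (y i) = 1 := by
    intro i
    simp only [hσ]
    rw [dif_neg]
    rintro ⟨j, hj⟩
    exact hyz' i j hj.symm
  have hσ2 : ∀ l, σ l * σ l = 1 := by
    intro l
    simp only [hσ]
    split_ifs <;> norm_num
  set A' : Matrix (Fin (2 * (k + r) - 1)) (Fin (k + r)) ℝ := fun l j => σ l * A l j with hA'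
  have hdet : ∀ s : Fin r → Fin (2 * r - 1),
      (A'.submatrix (Sum.elim y (z ∘ s)) eqv).det =
        (∏ i, σ (z (s i))) * (A.submatrix (Sum.elim y (z ∘ s)) eqv).det := by
    intro s
    have h1 : A'.submatrix (Sum.elim y (z ∘ s)) eqv =
        Matrix.of fun i j => (σ (Sum.elim y (z ∘ s) i)) * A.submatrix (Sum.elim y (z ∘ s)) eqv i j := by
      ext i j
      rfl
    rw [h1, det_mul_column, Fintype.prod_sum_type]
    simp only [Sum.elim_inl, Sum.elim_inr, hσy, Function.comp_apply, prod_const_one, one_mul]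
  have hsgn : ∀ s : Fin r → Fin (2 * r - 1),
      ∃ c : ℝ, 0 < c ∧ ∏ i, η (s i) = c * ∏ i, σ (z (s i)) := by
    intro s
    refine ⟨∏ i, |η (s i)|, prod_pos fun i _ => abs_pos.mpr (hη _), ?_⟩
    rw [← prod_mul_distrib]
    refine prod_congr rfl fun i _ => ?_
    rw [hσz]
    split_ifs with h
    · rw [abs_of_pos h, mul_one]
    · rw [abs_of_nonpos (not_lt.mp h)]
      ring
  have hpos' : ∀ s : Fin r → Fin (2 * r - 1), StrictMono s →
      0 ≤ ε * (A'.submatrix (Sum.elim y (z ∘ s)) eqv).det := by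
    intro s hs
    obtain ⟨c, hc, hce⟩ := hsgn s
    have h1 := hpos s hs
    rw [hce] at h1
    rw [hdet]
    have h2 : ε * (c * ∏ i, σ (z (s i))) * (A.submatrix (Sum.elim y (z ∘ s)) eqv).det =
        c * (ε * ((∏ i, σ (z (s i))) * (A.submatrix (Sum.elim y (z ∘ s)) eqv).det)) := by ring
    rw [h2] at h1
    exact nonneg_of_mul_nonneg_right h1 hc
  obtain ⟨S, hS, x, hx, i, hi⟩ := main_general hM hr A' eqv y z hyz ε hε hpos'
  refine ⟨S, lt_of_le_of_lt ?_ hS, x, hx, i, ?_⟩
  · refine Submodule.finrank_mono (Submodule.span_le.mpr ?_)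
    rintro _ ⟨l, rfl⟩
    have h1 : A l.1 = σ l.1 • A' l.1 := by
      funext j
      simp only [hA', Pi.smul_apply, smul_eq_mul]
      rw [← mul_assoc, hσ2, one_mul]
    simp only [h1]
    exact Submodule.smul_mem _ _ (Submodule.subset_span ⟨l, rfl⟩)
  · have h1 : ∀ l, (∑ j, A' l j * x j) ^ 2 = (∑ j, A l j * x j) ^ 2 := by
      intro l
      have : ∑ j, A' l j * x j = σ l * ∑ j, A l j * x j := by
        rw [mul_sum]
        refine sum_congr rfl fun j _ => ?_
        simp only [hA']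
        ring
      rw [this, mul_pow, sq, hσ2, one_mul]
    have h2 : ∑ j, A' i j ^ 2 = ∑ j, A i j ^ 2 := by
      refine sum_congr rfl fun j _ => ?_
      simp only [hA']
      rw [mul_pow, sq, hσ2, one_mul]
    simp only [h1, h2] at hi
    exact hi

end Pool.Agent.BalanWang
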