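import Mathlib

set_option autoImplicit false

open Finset Matrix

namespace Pool.Agent.BalanWang

section

variable {n : Type} [Fintype n] [DecidableEq n]

/-- the determinant as a function of one row -/
lemma det_updateRow_eq_sum (R : Matrix n n ℝ) (q : n) (y : n → ℝ) :
    (R.updateRow q y).det = ∑ j, y j * (R.updateRow q (Pi.single j 1)).det := by
  rw [det_eq_sum_mul_adjugate_row (R.updateRow q y) q]
  refine sum_congr rfl fun j _ => ?_
  rw [updateRow_self, adjugate_apply, updateRow_idem]

/-- `R` with rows `p`, `q` replaced. -/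
def WW (R : Matrix n n ℝ) (p q : n) (x y : n → ℝ) : ℝ := ((R.updateRow p x).updateRow q y).det

lemma WW_lin (R : Matrix n n ℝ) (p q : n) (x : n → ℝ) (y : n → ℝ) :
    WW R p q x y = ∑ j, y j * WW R p q x (Pi.single j 1) :=
  det_updateRow_eq_sum _ _ _

lemma WW_swap (R : Matrix n n ℝ) {p q : n} (hpq : p ≠ q) (x y : n → ℝ) :
    WW R p q x y = - WW R p q y x := by
  have h := det_permute (Equiv.swap p q) ((R.updateRow p y).updateRow q x)
  rw [Equiv.Perm.sign_swap hpq] at h
  have e : (((R.updateRow p y).updateRow q x).submatrix (Equiv.swap p q) id) =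
      (R.updateRow p x).updateRow q y := by
    ext i j
    simp only [submatrix_apply, id]
    by_cases hp : i = p
    · subst hp
      rw [Equiv.swap_apply_left, updateRow_self, updateRow_ne hpq, updateRow_self]
    · by_cases hq : i = q
      · subst hq
        rw [Equiv.swap_apply_right, updateRow_ne hpq, updateRow_self, updateRow_self]
      · rw [Equiv.swap_apply_of_ne_of_ne hp hq, updateRow_ne hq, updateRow_ne hp, updateRow_ne hq,
          updateRow_ne hp]
  rw [e] at h
  unfold WW
  rw [h]
  simp

/-- **Three-term Plücker relation.** -/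
theorem plucker3 (R : Matrix n n ℝ) {p q : n} (hpq : p ≠ q) (a b c d : n → ℝ) :
    WW R p q a c * WW R p q b d = WW R p q a b * WW R p q c d + WW R p q a d * WW R p q b c := by
  set C : Matrix n n ℝ := (R.updateRow p c).updateRow q d with hC
  have h1 : ∀ j, C.det * b j = ∑ i, (C.updateRow i b).det * C i j := by
    intro j
    have h := congrFun (mulVec_cramer Cᵀ b) j
    rw [det_transpose, Pi.smul_apply, smul_eq_mul] at h
    rw [← h, mulVec, dotProduct]
    refine sum_congr rfl fun i _ => ?_
    rw [cramer_transpose_apply, transpose_apply, mul_comm]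
  have h2 : C.det * WW R p q a b = ∑ i, (C.updateRow i b).det * WW R p q a (C i) := by
    rw [WW_lin, mul_sum]
    simp_rw [← mul_assoc, h1, sum_mul]
    rw [sum_comm]
    refine sum_congr rfl fun i _ => ?_
    rw [WW_lin R p q a (C i), mul_sum]
    refine sum_congr rfl fun j _ => ?_
    ring
  have h3 : ∀ i, i ≠ p → i ≠ q → WW R p q a (C i) = 0 := by
    intro i hi1 hi2
    unfold WW
    refine det_zero_of_row_eq (i := i) (j := q) hi2 ?_
    rw [updateRow_self, updateRow_ne hi2, updateRow_ne hi1, hC]
    funext j
    rw [updateRow_ne hi2, updateRow_ne hi1]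
  have h4 : ∑ i, (C.updateRow i b).det * WW R p q a (C i) =
      (C.updateRow p b).det * WW R p q a (C p) + (C.updateRow q b).det * WW R p q a (C q) := by
    rw [← sum_subset (subset_univ {p, q})]
    · rw [sum_pair hpq]
    · intro i _ hi
      rw [mem_insert, mem_singleton, not_or] at hi
      rw [h3 i hi.1 hi.2, mul_zero]
  have h5 : C p = c := by
    funext j
    rw [hC, updateRow_ne hpq, updateRow_self]
  have h6 : C q = d := by
    funext j
    rw [hC, updateRow_self]
  have h7 : (C.updateRow p b).det = WW R p q b d := by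
    unfold WW
    rw [hC, updateRow_comm _ hpq.symm, updateRow_idem]
  have h8 : (C.updateRow q b).det = WW R p q c b := by
    unfold WW
    rw [hC, updateRow_idem]
  have h9 : C.det = WW R p q c d := rfl
  rw [h4, h5, h6, h7, h8, h9, WW_swap R hpq c b] at h2
  linarith

end

end Pool.Agent.BalanWang
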